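import Pool.Agent.H373R2.T7.BilE
import Pool.Agent.U325.PA.Mod

/-!
The first moment over the shifts `c ≤ X` of the sums of a function along the translates of a family of small
additive energy of some order; the energy of a family near a multiple of another one.
-/

set_option autoImplicit false

namespace Pool.Agent.U325.PH

open Finset
open Pool.Agent.U325.PB Pool.Agent.U325.PQ
open Pool.Agent.H807R2.Dav (ee)
open Pool.Agent.H373R2.T7 (energy bil_main moment_energy fz)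

lemma shift_count {α : Type*} [DecidableEq α] (T : Finset α) (g : α → ℤ) (D : ℤ) :
    ((T ×ˢ T).filter (fun q => g q.1 - g q.2 = D)).card ≤ ((T ×ˢ T).filter (fun q => g q.1 = g q.2)).card := by
  classical
  set r : ℤ → ℕ := fun y => (T.filter (fun a => g a = y)).card with hr
  set I := T.image g with hI
  have h0 : ∀ E : ℤ, ((T ×ˢ T).filter (fun q => g q.1 - g q.2 = E)).card = ∑ y ∈ I, r y * r (y - E) := by
    intro E
    have hmaps : ∀ q ∈ (T ×ˢ T).filter (fun q => g q.1 - g q.2 = E), g q.1 ∈ I := by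
      intro q hq
      rw [mem_filter, mem_product] at hq
      exact mem_image_of_mem g hq.1.1
    rw [card_eq_sum_card_fiberwise hmaps]
    refine sum_congr rfl fun y _ => ?_
    rw [hr]
    simp only
    rw [← card_product]
    congr 1
    ext q
    simp only [mem_filter, mem_product]
    constructor
    · rintro ⟨⟨⟨h1, h2⟩, h3⟩, h4⟩
      exact ⟨⟨h1, h4⟩, h2, by omega⟩
    · rintro ⟨⟨h1, h2⟩, h3, h4⟩
      exact ⟨⟨⟨h1, h3⟩, by omega⟩, h2⟩
  have h3 : ((T ×ˢ T).filter (fun q => g q.1 = g q.2)).card = ∑ y ∈ I, r y ^ 2 := by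
    have h4 := h0 0
    simp only [sub_zero, sub_eq_zero] at h4
    rw [h4]
    exact sum_congr rfl fun y _ => (sq _).symm
  rw [h0 D, h3]
  have h5 : ∑ y ∈ I, r (y - D) ^ 2 ≤ ∑ y ∈ I, r y ^ 2 := by
    have e1 : ∑ y ∈ I, r (y - D) ^ 2 = ∑ z ∈ I.image (fun y => y - D), r z ^ 2 := by
      refine (sum_image (f := fun z => r z ^ 2) (g := fun y : ℤ => y - D) ?_).symm
      intro a _ b _ hab
      have : a - D = b - D := hab
      omega
    rw [e1]
    refine sum_le_sum_of_ne_zero fun z _ hz => ?_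
    have h6 : r z ≠ 0 := fun h => hz (by rw [h]; rfl)
    rw [hr] at h6
    simp only [ne_eq, card_eq_zero] at h6
    obtain ⟨a, ha⟩ := nonempty_iff_ne_empty.2 h6
    rw [mem_filter] at ha
    rw [hI, mem_image]
    exact ⟨a, ha.1, ha.2⟩
  have h6 : 2 * ∑ y ∈ I, r y * r (y - D) ≤ ∑ y ∈ I, r y ^ 2 + ∑ y ∈ I, r (y - D) ^ 2 := by
    rw [mul_sum, ← sum_add_distrib]
    refine sum_le_sum fun y _ => ?_
    have := two_mul_le_add_sq (r y) (r (y - D))
    rw [mul_assoc] at this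
    exact this
  omega

lemma energy_pert (p x R : ℕ) (d : ℤ) (s g : ℕ → ℤ) (h : ∀ m ∈ Icc 1 x, |d * s m - g m| ≤ R) :
    energy p x s ≤ (4 * (p * R) + 1) * energy p x g := by
  classical
  set T := (Fintype.piFinset fun _ : Fin p => Icc 1 x) with hT
  set J : Finset ℤ := Icc (-((2 * (p * R) : ℕ) : ℤ)) ((2 * (p * R) : ℕ) : ℤ) with hJ
  have h1 : (T ×ˢ T).filter (fun q => ∑ i, s (q.1 i) = ∑ i, s (q.2 i)) ⊆
      J.biUnion (fun D => (T ×ˢ T).filter (fun q => (∑ i, g (q.1 i)) - (∑ i, g (q.2 i)) = D)) := by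
    intro q hq
    rw [mem_filter, mem_product] at hq
    rw [mem_biUnion]
    refine ⟨∑ i, g (q.1 i) - ∑ i, g (q.2 i), ?_, ?_⟩
    · have b1 : ∀ v ∈ T, |d * ∑ i, s (v i) - ∑ i, g (v i)| ≤ p * R := by
        intro v hv
        rw [hT, Fintype.mem_piFinset] at hv
        rw [mul_sum, ← sum_sub_distrib]
        refine (abs_sum_le_sum_abs _ _).trans ((sum_le_sum fun i _ => h _ (hv i)).trans ?_)
        rw [sum_const, card_univ, Fintype.card_fin, nsmul_eq_mul]
      have b2 := abs_le.1 (b1 q.1 hq.1.1)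
      have b3 := abs_le.1 (b1 q.2 hq.1.2)
      rw [hq.2] at b2
      rw [hJ, mem_Icc]
      push_cast
      constructor <;> linarith [b2.1, b2.2, b3.1, b3.2]
    · rw [mem_filter, mem_product]
      exact ⟨hq.1, rfl⟩
  have h2 := (card_le_card h1).trans card_biUnion_le
  have h3 : ∀ D ∈ J, ((T ×ˢ T).filter (fun q => (∑ i, g (q.1 i)) - (∑ i, g (q.2 i)) = D)).card ≤ energy p x g :=
    fun D _ => shift_count T (fun v => ∑ i, g (v i)) D
  calc energy p x s = ((T ×ˢ T).filter (fun q => ∑ i, s (q.1 i) = ∑ i, s (q.2 i))).card := rfl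
    _ ≤ ∑ _D ∈ J, energy p x g := h2.trans (sum_le_sum h3)
    _ = _ := by
        rw [sum_const, hJ, Int.card_Icc, smul_eq_mul]
        congr 1
        omega

/-- the first moment over the shifts -/
theorem first (x X B p : ℕ) (s : ℕ → ℕ) (w b : ℕ → ℝ) (S E C₀ η : ℝ) (hx : 1 ≤ x) (hX : 1 ≤ X)
    (hs : ∀ m ∈ Icc 1 x, s m ≤ B * X) (hb : ∀ m, |b m| ≤ 1)
    (hS : ∀ t, ‖G w ((B + 1) * X) t‖ ≤ S) (hE : ∑ n ∈ Icc 1 ((B + 1) * X), w n ^ 2 ≤ E)
    (hen : (energy p x (fun m => (s m : ℤ)) : ℝ) * X ≤ C₀ * (x : ℝ) ^ (2 * p)) (hη : 0 < η) :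
    ∑ c ∈ Icc 1 X, |∑ m ∈ Icc 1 x, b m * w (s m + c)| ≤ C₀ / η ^ (2 * p) * S * x + η * x * Real.sqrt (E * X) := by
  set H : ℕ := (B + 1) * X with hH
  set M : ℕ := (2 * p + 2) * H with hM
  have hXH : X ≤ H := Nat.le_mul_of_pos_left _ (by omega)
  have hBX : B * X ≤ H := Nat.mul_le_mul_right _ (by omega)
  have hHe : H = B * X + X := by rw [hH]; ring
  have hHM2 : 2 * H ≤ M := Nat.mul_le_mul_right _ (by omega)
  have hHM : H ≤ M := by omega
  have hM1 : 1 ≤ M := by omega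
  have hx0 : (0 : ℝ) < x := by exact_mod_cast hx
  have hX0 : (0 : ℝ) < X := by exact_mod_cast hX
  have hcond : ∀ a ∈ Icc 1 X, ∀ m ∈ Icc 1 x, ∀ n ∈ Icc 1 H, |(a : ℤ) + ((s m : ℕ) : ℤ) - n| < M := by
    intro a ha m hm n hn
    have h1 := hs m hm
    rw [mem_Icc] at ha hn
    rw [abs_lt]
    constructor <;> omega
  have hmomE := moment_energy p x (fun m => (s m : ℤ)) M (B * X) hM1 (fun m hm => by
    have := hs m hm
    rw [abs_of_nonneg (by positivity)]
    exact_mod_cast this) (by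
    have h4 : 2 * p * (B * X) ≤ 2 * p * H := Nat.mul_le_mul_left _ hBX
    have h5 : 2 * p * H < (2 * p + 2) * H := Nat.mul_lt_mul_of_pos_right (by omega) (by omega)
    omega)
  have hMr : (M : ℝ) = (2 * p + 2) * (B + 1) * X := by rw [hM, hH]; push_cast; ring
  have hmom : ∑ t ∈ range M, (‖∑ m ∈ Icc 1 x, ee ((t : ℝ) * ((((s m : ℕ) : ℤ) : ℝ) / M))‖ / x) ^ (2 * p) ≤
      (2 * p + 2) * (B + 1) * C₀ := by
    have h2 : ∑ t ∈ range M, (‖∑ m ∈ Icc 1 x, ee ((t : ℝ) * ((((s m : ℕ) : ℤ) : ℝ) / M))‖ / x) ^ (2 * p) =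
        (M * energy p x (fun m => (s m : ℤ))) / (x : ℝ) ^ (2 * p) := by
      rw [← hmomE, sum_div]
      exact sum_congr rfl fun t _ => div_pow _ _ _
    rw [h2, div_le_iff₀ (by positivity), hMr]
    calc (2 * (p : ℝ) + 2) * (B + 1) * X * energy p x (fun m => (s m : ℤ)) =
        (2 * p + 2) * (B + 1) * (energy p x (fun m => (s m : ℤ)) * X) := by ring
      _ ≤ (2 * p + 2) * (B + 1) * (C₀ * (x : ℝ) ^ (2 * p)) := mul_le_mul_of_nonneg_left hen (by positivity)
      _ = _ := by ring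
  set T : ℕ → ℝ := fun c => ∑ m ∈ Icc 1 x, b m * w (s m + c) with hT
  set sg : ℕ → ℝ := fun c => if 0 ≤ T c then 1 else -1 with hsg
  have hsg1 : ∀ c, sg c * T c = |T c| := by
    intro c
    rw [hsg]
    simp only
    split_ifs with h
    · rw [one_mul, abs_of_nonneg h]
    · rw [abs_of_neg (not_le.1 h)]; ring
  have hsg2 : ∀ c, ‖((sg c : ℝ) : ℂ)‖ ≤ 1 := by
    intro c
    rw [Complex.norm_real, Real.norm_eq_abs, hsg]
    simp only
    split_ifs
    · rw [abs_one]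
    · rw [abs_neg, abs_one]
  have hb2 : ∀ m, ‖((b m : ℝ) : ℂ)‖ ≤ 1 := by
    intro m
    rw [Complex.norm_real, Real.norm_eq_abs]
    exact hb m
  have hf : ∀ α : ℝ, ‖∑ n ∈ Icc 1 H, ((w n : ℝ) : ℂ) * ee ((n : ℝ) * α)‖ ≤ S := by
    intro α
    have := hS α
    unfold G at this
    exact this
  have hfs : ∑ n ∈ Icc 1 H, ‖((w n : ℝ) : ℂ)‖ ^ 2 ≤ E := by
    refine le_trans (le_of_eq (sum_congr rfl fun n _ => ?_)) hE
    rw [Complex.norm_real, Real.norm_eq_abs, sq_abs]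
  have key := bil_main X H x M hM1 (fun n => ((w n : ℝ) : ℂ)) (fun c => ((sg c : ℝ) : ℂ)) (fun m => ((b m : ℝ) : ℂ))
    (fun m => ((s m : ℕ) : ℤ)) S η p ((2 * p + 2) * (B + 1) * C₀) E hcond (by omega) hHM hx hf hsg2 hb2 hmom hfs hη
  have heq : ∑ a ∈ Icc 1 X, ∑ m ∈ Icc 1 x, ((sg a : ℝ) : ℂ) * ((b m : ℝ) : ℂ) *
      fz (fun n => ((w n : ℝ) : ℂ)) H (a + ((s m : ℕ) : ℤ)) = ((∑ c ∈ Icc 1 X, |T c| : ℝ) : ℂ) := by
    push_cast
    refine sum_congr rfl fun a ha => ?_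
    have e1 : ((|T a| : ℝ) : ℂ) = ((sg a * T a : ℝ) : ℂ) := by rw [hsg1]
    rw [e1, hT]
    push_cast
    rw [mul_sum]
    refine sum_congr rfl fun m hm => ?_
    have h1 := hs m hm
    rw [mem_Icc] at ha
    unfold fz
    rw [if_pos ⟨by omega, by omega⟩]
    have e2 : ((a : ℤ) + ((s m : ℕ) : ℤ)).toNat = s m + a := by omega
    rw [e2]
    ring
  rw [heq, Complex.norm_real, Real.norm_of_nonneg (sum_nonneg fun _ _ => abs_nonneg _)] at key
  refine key.trans (le_of_eq ?_)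
  have e3 : (2 * (p : ℝ) + 2) * (B + 1) * C₀ / η ^ (2 * p) * S * X * x / M = C₀ / η ^ (2 * p) * S * x := by
    rw [hMr]
    have : (2 * (p : ℝ) + 2) ≠ 0 := by positivity
    have : ((B : ℝ) + 1) ≠ 0 := by positivity
    field_simp
  rw [e3]

end Pool.Agent.U325.PH
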