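import Pool.Agent.U325.PH.Bil

/-!
Sieve functions of the values `s(m) + c`, where `d s(m)` is near to a polynomial `g(m)`, do not see the parity of
the number of prime factors, for almost all `c`.
-/

set_option autoImplicit false

namespace Pool.Agent.U325.PH

open Finset Filter Topology Polynomial
open Pool.Agent.U325.PB Pool.Agent.U325.PQ
open Pool.Agent.H373R2.T7 (energy energy_poly cf abs_eval_le)
open Pool.Agent.U325.PA (IsSieve)

lemma env (k D U : ℕ) (hk : 1 ≤ k) (hD : 1 ≤ D) (δ : ℝ) (hδ : 0 < δ) (B : ℝ) : ∃ x₀ : ℕ, ∀ x : ℕ, x₀ ≤ x → 1 ≤ x ∧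
    1 ≤ Real.log x ∧ B ≤ Real.log x ∧ Real.log x ^ U ≤ x ∧
    1 + Real.log ((D * x ^ k : ℕ) : ℝ) ≤ (k + 2) * Real.log x ∧
    ∀ d : ℕ, 1 ≤ d → (d : ℝ) ≤ (x : ℝ) ^ k * Real.exp (-(Real.log x) ^ δ) → ∀ t : ℝ,
      ‖G (vE d) (D * x ^ k) t‖ ≤ ((D * x ^ k : ℕ) : ℝ) / d / Real.log x ^ U := by
  obtain ⟨X₁, h1⟩ := sup_mult (δ / 2) (by positivity) U
  obtain ⟨X₂, h2⟩ := ev_exp 1 (by norm_num) (U + 1) (max B (max ((k : ℝ) + 1) D))
  refine ⟨max X₁ X₂, fun x hx => ?_⟩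
  obtain ⟨hx1, hL1, hLB, hexp2⟩ := h2 x ((le_max_right _ _).trans hx)
  have hxX : X₁ ≤ x := (le_max_left _ _).trans hx
  have hxr : (1 : ℝ) ≤ x := by exact_mod_cast hx1
  have hx0 : (0 : ℝ) < x := by linarith
  set L := Real.log x with hL
  have hL0 : 0 < L := by linarith
  rw [Real.rpow_one, hL, Real.exp_log hx0, ← hL] at hexp2
  have hB : B ≤ L := (le_max_left _ _).trans hLB
  have hkL : (k : ℝ) + 1 ≤ L := ((le_max_left _ _).trans (le_max_right _ _)).trans hLB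
  have hDL : (D : ℝ) ≤ L := ((le_max_right _ _).trans (le_max_right _ _)).trans hLB
  have hDr : (1 : ℝ) ≤ D := by exact_mod_cast hD
  have hxU : L ^ U ≤ x := (pow_le_pow_right₀ hL1 (by omega)).trans hexp2
  have hLx : L ≤ x := by
    calc L = L ^ 1 := (pow_one _).symm
      _ ≤ L ^ (U + 1) := pow_le_pow_right₀ hL1 (by omega)
      _ ≤ x := hexp2
  set Y : ℕ := D * x ^ k with hY
  have hYr : (Y : ℝ) = D * (x : ℝ) ^ k := by rw [hY]; push_cast; ring
  have hYx : (x : ℝ) ^ k ≤ Y := by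
    rw [hYr]
    exact le_mul_of_one_le_left (by positivity) hDr
  have hYx1 : x ≤ Y := by
    calc x = x ^ 1 := (pow_one _).symm
      _ ≤ x ^ k := Nat.pow_le_pow_right hx1 hk
      _ ≤ Y := Nat.le_mul_of_pos_left _ hD
  have hY0 : (0 : ℝ) < Y := lt_of_lt_of_le (by positivity) hYx
  have hYx3 : (Y : ℝ) ≤ (x : ℝ) ^ (k + 1) := by
    rw [hYr, pow_succ, mul_comm]
    exact mul_le_mul_of_nonneg_left (hDL.trans hLx) (by positivity)
  have hlogY : Real.log Y ≤ (k + 1) * L := by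
    have := Real.log_le_log hY0 hYx3
    rw [Real.log_pow] at this
    push_cast at this
    exact this
  have hlogY2 : L ≤ Real.log Y := Real.log_le_log hx0 (by exact_mod_cast hYx1)
  refine ⟨hx1, hL1, hB, hxU, ?_, fun d hd hdx t => ?_⟩
  · have : (k + 2) * L = (k + 1) * L + L := by ring
    rw [this]
    linarith
  have hlog2 : (Real.log Y) ^ (δ / 2) ≤ L ^ δ := by
    calc (Real.log Y) ^ (δ / 2) ≤ (L ^ (2 : ℕ)) ^ (δ / 2) := by
          refine Real.rpow_le_rpow (by linarith) ?_ (by positivity)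
          refine hlogY.trans ?_
          rw [sq]
          exact mul_le_mul_of_nonneg_right hkL hL0.le
      _ = L ^ δ := by
          rw [← Real.rpow_natCast, ← Real.rpow_mul hL0.le]
          congr 1
          push_cast
          ring
  have hdY : (d : ℝ) ≤ Y * Real.exp (-(Real.log Y) ^ (δ / 2)) := by
    refine hdx.trans (mul_le_mul hYx (Real.exp_le_exp.2 (by linarith)) (Real.exp_pos _).le hY0.le)
  have hsup := h1 Y (hxX.trans hYx1) d hd hdY t
  have hdr : (0 : ℝ) < d := by exact_mod_cast hd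
  have hfin : (Y : ℝ) / d / Real.log Y ^ U ≤ Y / d / L ^ U :=
    div_le_div_of_nonneg_left (by positivity) (by positivity) (pow_le_pow_left₀ hL0.le hlogY2 U)
  refine le_trans ?_ (hsup.trans hfin)
  unfold G vE
  exact le_rfl

/-- the weighted sum of `λ(v) ∑_{e ∣ v} σ(e)`, `v = s(m) + c` -/
noncomputable def TS (x : ℕ) (s : ℕ → ℕ) (b σ : ℕ → ℝ) (c : ℕ) : ℝ := ∑ m ∈ Icc 1 x, b m * ww σ (s m + c)

/-- `d s(m)` is within `(log x) ^ C` of `g(m)` -/
def Near (C : ℕ) (g : ℤ[X]) (x d : ℕ) (s : ℕ → ℕ) : Prop :=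
  1 ≤ d ∧ ∀ m ∈ Icc 1 x, (|(d : ℝ) * s m - ((g.eval (m : ℤ) : ℤ) : ℝ)| : ℝ) ≤ Real.log x ^ C

theorem mean (g : ℤ[X]) (hd : 1 ≤ g.natDegree) (hl : 0 < g.leadingCoeff) (C V : ℕ) (δ : ℝ) (hδ : 0 < δ) :
    ∃ x₀ : ℕ, ∀ x : ℕ, x₀ ≤ x → 2 ≤ Real.log x ∧ ∀ (d : ℕ) (s : ℕ → ℕ), Near C g x d s →
    ∀ b σ : ℕ → ℝ, (∀ m, |b m| ≤ 1) → IsSieve C δ x ((x : ℝ) ^ g.natDegree) σ →
    ∑ c ∈ Icc 1 (x ^ g.natDegree), |TS x s b σ c| ≤ x * (x : ℝ) ^ g.natDegree / Real.log x ^ V := by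
  obtain ⟨p, Cg, hCg, hen⟩ := energy_poly g hd hl
  set k := g.natDegree with hk
  set B : ℕ := cf g + 1 with hB
  set V' : ℕ := V + 1 + (C + 1 + 2 ^ (2 * C + 2)) with hV'
  set U : ℕ := V + (C + 1) + V' * (2 * p) + 1 + C + 2 * 2 ^ C + 1 with hU
  obtain ⟨x₀, h1⟩ := env k (B + 1) (U + C) hd (by omega) δ hδ ((4 * p + 1) * Cg + (B + 1) + (k + 2) + 2)
  refine ⟨x₀, fun x hx => ?_⟩
  obtain ⟨hx1, hL1, hLB, hxU, hlog, hsup⟩ := h1 x hx
  have hxr : (1 : ℝ) ≤ x := by exact_mod_cast hx1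
  have hx0 : (0 : ℝ) < x := by linarith
  set L := Real.log x with hLd
  have hL0 : 0 < L := by linarith
  have q1 : 0 ≤ (4 * (p : ℝ) + 1) * Cg := by positivity
  have q2 : (0 : ℝ) ≤ B := Nat.cast_nonneg _
  have q3 : (0 : ℝ) ≤ k := Nat.cast_nonneg _
  refine ⟨by linarith, fun d s hs b σ hb hσ => ?_⟩
  set X : ℕ := x ^ k with hX
  have hXr : (X : ℝ) = (x : ℝ) ^ k := by rw [hX]; push_cast; ring
  have hX1 : 1 ≤ X := Nat.one_le_pow _ _ hx1
  have hX0 : (0 : ℝ) < X := by exact_mod_cast hX1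
  have hLC : L ^ C ≤ x := (pow_le_pow_right₀ hL1 (by omega)).trans hxU
  have hLCX : L ^ C ≤ X := by
    refine hLC.trans ?_
    have : x ≤ X := by
      calc x = x ^ 1 := (pow_one _).symm
        _ ≤ X := Nat.pow_le_pow_right hx1 hd
    exact_mod_cast this
  -- the size of the family
  have hsB : ∀ m ∈ Icc 1 x, s m ≤ B * X := by
    intro m hm
    have e1 := (abs_le.1 (hs.2 m hm)).2
    have e2 := abs_eval_le g m (mem_Icc.1 hm).1
    have e3 : ((g.eval (m : ℤ) : ℤ) : ℝ) ≤ cf g * (m : ℝ) ^ k := by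
      have := (le_abs_self _).trans e2
      exact_mod_cast this
    have e4 : (m : ℝ) ^ k ≤ X := by
      rw [hXr]
      have : (m : ℝ) ≤ x := by exact_mod_cast (mem_Icc.1 hm).2
      exact pow_le_pow_left₀ (Nat.cast_nonneg _) this k
    have e5 : (s m : ℝ) ≤ (d : ℝ) * s m := by
      have : (1 : ℝ) ≤ d := by exact_mod_cast hs.1
      exact le_mul_of_one_le_left (Nat.cast_nonneg _) this
    have e6 : (cf g : ℝ) * (m : ℝ) ^ k ≤ cf g * X := mul_le_mul_of_nonneg_left e4 (Nat.cast_nonneg _)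
    have e7 : (s m : ℝ) ≤ ((B * X : ℕ) : ℝ) := by
      rw [hB]
      push_cast
      linarith
    exact_mod_cast e7
  -- the energy of the family
  set R : ℕ := ⌊L ^ C⌋₊ with hR
  have hRr : (R : ℝ) ≤ L ^ C := Nat.floor_le (by positivity)
  have hen2 : energy p x (fun m => (s m : ℤ)) ≤ (4 * (p * R) + 1) * energy p x (fun m => g.eval (m : ℤ)) := by
    refine energy_pert p x R d (fun m => (s m : ℤ)) (fun m => g.eval (m : ℤ)) fun m hm => ?_
    have e1 := hs.2 m hm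
    have e2 : (|(d : ℤ) * (s m : ℤ) - g.eval (m : ℤ)| : ℤ) = (((d : ℤ) * (s m : ℤ) - g.eval (m : ℤ)).natAbs : ℤ) :=
      Int.abs_eq_natAbs _
    rw [e2]
    have e3 : ((((d : ℤ) * (s m : ℤ) - g.eval (m : ℤ)).natAbs : ℕ) : ℝ) ≤ L ^ C := by
      rw [Nat.cast_natAbs, Int.cast_abs]
      push_cast
      exact e1
    exact_mod_cast Nat.le_floor e3
  have hen3 : (energy p x (fun m => (s m : ℤ)) : ℝ) * X ≤ L ^ (C + 1) * (x : ℝ) ^ (2 * p) := by
    have e1 : (energy p x (fun m => (s m : ℤ)) : ℝ) ≤ (4 * (p * R) + 1) * energy p x (fun m => g.eval (m : ℤ)) := by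
      exact_mod_cast hen2
    have e2 := hen x hx1
    rw [← hXr] at e2
    have e3 : (4 * ((p : ℝ) * R) + 1) * Cg ≤ L ^ (C + 1) := by
      have f1 : 4 * ((p : ℝ) * R) + 1 ≤ (4 * p + 1) * L ^ C := by
        have g1 : (p : ℝ) * R ≤ p * L ^ C := mul_le_mul_of_nonneg_left hRr (Nat.cast_nonneg _)
        have g2 : 1 ≤ L ^ C := one_le_pow₀ hL1
        nlinarith
      calc (4 * ((p : ℝ) * R) + 1) * Cg ≤ ((4 * p + 1) * L ^ C) * Cg := mul_le_mul_of_nonneg_right f1 hCg.le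
        _ = ((4 * p + 1) * Cg) * L ^ C := by ring
        _ ≤ L * L ^ C := mul_le_mul_of_nonneg_right (by linarith) (by positivity)
        _ = _ := by ring
    calc (energy p x (fun m => (s m : ℤ)) : ℝ) * X ≤
          ((4 * (p * R) + 1) * energy p x (fun m => g.eval (m : ℤ))) * X := mul_le_mul_of_nonneg_right e1 hX0.le
      _ = (4 * (p * R) + 1) * (energy p x (fun m => g.eval (m : ℤ)) * X) := by ring
      _ ≤ (4 * (p * R) + 1) * (Cg * (x : ℝ) ^ (2 * p)) := mul_le_mul_of_nonneg_left e2 (by positivity)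
      _ = ((4 * (p * R) + 1) * Cg) * (x : ℝ) ^ (2 * p) := by ring
      _ ≤ _ := mul_le_mul_of_nonneg_right e3 (by positivity)
  -- the sums of the weights
  set H : ℕ := (B + 1) * X with hH
  set Z : ℕ := ⌊(x : ℝ) ^ k * Real.exp (-(Real.log x) ^ δ)⌋₊ with hZ
  have hexp1 : Real.exp (-(Real.log x) ^ δ) ≤ 1 := by
    rw [Real.exp_le_one_iff]
    have : 0 ≤ L ^ δ := Real.rpow_nonneg hL0.le _
    linarith
  have hZr : (Z : ℝ) ≤ (x : ℝ) ^ k * Real.exp (-(Real.log x) ^ δ) := Nat.floor_le (by positivity)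
  have hXH : X ≤ H := Nat.le_mul_of_pos_left _ (by omega)
  have hZH : Z ≤ H := by
    refine le_trans ?_ hXH
    have : (Z : ℝ) ≤ X := by
      rw [hXr]
      exact hZr.trans (mul_le_of_le_one_right (by positivity) hexp1)
    exact_mod_cast this
  have hH1 : 1 ≤ H := hX1.trans hXH
  have hS1 : ∀ e ∈ Icc 1 Z, ∀ t : ℝ, ‖G (vE e) H t‖ ≤ H / e / L ^ (U + C) := by
    intro e he t
    rw [mem_Icc] at he
    refine hsup e he.1 ?_ t
    have : (e : ℝ) ≤ Z := by exact_mod_cast he.2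
    exact this.trans hZr
  have hσ0 : ∀ e, Z < e → σ e = 0 := fun e he => (hσ e).2 (Nat.lt_of_floor_lt he)
  have hσ1 : ∀ e, |σ e| ≤ L ^ C * (e.divisors.card : ℝ) ^ C := fun e => (hσ e).1
  have hsupw := ww_sup σ C Z H (L ^ C) (L ^ (U + C)) (by positivity) (by positivity) hZH hσ0 hσ1 hS1
  have hsqw := ww_sq σ C H (L ^ C) (by positivity) hσ1
  set t1 := Pool.Agent.U325.PB.tsum C H with ht1
  set t2 := Pool.Agent.U325.PB.tsum (2 * C + 2) H with ht2
  have hlog2 : 1 + Real.log (H : ℝ) ≤ L ^ 2 := by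
    refine hlog.trans ?_
    rw [sq]
    exact mul_le_mul_of_nonneg_right (by linarith) hL0.le
  have hlog0 : 0 ≤ 1 + Real.log (H : ℝ) := by
    have : 0 ≤ Real.log (H : ℝ) := Real.log_natCast_nonneg _
    linarith
  have ht1b : t1 ≤ L ^ (2 * 2 ^ C) := by
    refine (tsum_le C H hH1).trans ?_
    rw [pow_mul]
    exact pow_le_pow_left₀ hlog0 hlog2 _
  have ht2b : t2 ≤ L ^ (2 * 2 ^ (2 * C + 2)) := by
    refine (tsum_le (2 * C + 2) H hH1).trans ?_
    rw [pow_mul]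
    exact pow_le_pow_left₀ hlog0 hlog2 _
  have ht10 : 0 ≤ t1 := tsum_nonneg _ _
  have ht20 : 0 ≤ t2 := tsum_nonneg _ _
  have hHr : (H : ℝ) ≤ L * X := by
    rw [hH]
    push_cast
    exact mul_le_mul_of_nonneg_right (by linarith) hX0.le
  have key := first x X B p s (ww σ) b (H * (L ^ C * t1 / L ^ (U + C))) ((L ^ C) ^ 2 * (H * t2)) (L ^ (C + 1)) (1 / L ^ V')
    hx1 hX1 hsB hb hsupw hsqw hen3 (by positivity)
  have hsum : ∑ c ∈ Icc 1 X, |TS x s b σ c| ≤ L ^ (C + 1) / (1 / L ^ V') ^ (2 * p) * (H * (L ^ C * t1 / L ^ (U + C))) * x +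
      1 / L ^ V' * x * Real.sqrt ((L ^ C) ^ 2 * (H * t2) * X) := key
  have hL2 : 2 ≤ L := by linarith
  have term1 : L ^ (C + 1) / (1 / L ^ V') ^ (2 * p) * (H * (L ^ C * t1 / L ^ (U + C))) * x ≤ (1 / 2) * (x * X / L ^ V) := by
    have f0 : L ^ C * t1 / L ^ (U + C) = t1 / L ^ U := by
      rw [pow_add]
      field_simp
    have f1 : L ^ (C + 1) / (1 / L ^ V') ^ (2 * p) = L ^ (C + 1) * L ^ (V' * (2 * p)) := by
      rw [div_pow, one_pow, ← pow_mul, div_div_eq_mul_div, div_one]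
    rw [f0, f1]
    calc L ^ (C + 1) * L ^ (V' * (2 * p)) * (H * (t1 / L ^ U)) * x
        ≤ L ^ (C + 1) * L ^ (V' * (2 * p)) * ((L * X) * (L ^ (2 * 2 ^ C) / L ^ U)) * x := by
          refine mul_le_mul_of_nonneg_right ?_ hx0.le
          refine mul_le_mul_of_nonneg_left ?_ (by positivity)
          refine mul_le_mul hHr ?_ (by positivity) (by positivity)
          exact div_le_div_of_nonneg_right ht1b (by positivity)
      _ = (1 / L) * (x * X / L ^ V) / L ^ C := by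
          have : L ^ U = L ^ V * L ^ (C + 1) * L ^ (V' * (2 * p)) * L * L ^ C * L ^ (2 * 2 ^ C) * L := by
            rw [hU]
            simp only [pow_add, pow_one]
          rw [this]
          field_simp
      _ ≤ (1 / L) * (x * X / L ^ V) := div_le_self (by positivity) (one_le_pow₀ hL1)
      _ ≤ (1 / 2) * (x * X / L ^ V) := by
          refine mul_le_mul_of_nonneg_right ?_ (by positivity)
          exact one_div_le_one_div_of_le (by norm_num) hL2
  have term2 : 1 / L ^ V' * x * Real.sqrt ((L ^ C) ^ 2 * (H * t2) * X) ≤ (1 / 2) * (x * X / L ^ V) := by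
    have f1 : Real.sqrt ((L ^ C) ^ 2 * (H * t2) * X) ≤ L ^ (C + 1 + 2 ^ (2 * C + 2)) * X := by
      rw [Real.sqrt_le_left (by positivity)]
      calc (L ^ C) ^ 2 * (H * t2) * X ≤ (L ^ C) ^ 2 * ((L * X) * L ^ (2 * 2 ^ (2 * C + 2))) * X := by
            refine mul_le_mul_of_nonneg_right ?_ hX0.le
            refine mul_le_mul_of_nonneg_left ?_ (by positivity)
            exact mul_le_mul hHr ht2b ht20 (by positivity)
        _ = L * ((L ^ C) ^ 2 * (L ^ (2 ^ (2 * C + 2))) ^ 2 * X ^ 2) := by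
            rw [mul_comm 2 (2 ^ (2 * C + 2)), pow_mul]
            ring
        _ ≤ L ^ 2 * ((L ^ C) ^ 2 * (L ^ (2 ^ (2 * C + 2))) ^ 2 * X ^ 2) := by
            refine mul_le_mul_of_nonneg_right ?_ (by positivity)
            nlinarith
        _ = (L ^ (C + 1 + 2 ^ (2 * C + 2)) * X) ^ 2 := by
            rw [pow_add L (C + 1), pow_add L C 1, pow_one]
            ring
    calc 1 / L ^ V' * x * Real.sqrt ((L ^ C) ^ 2 * (H * t2) * X)
        ≤ 1 / L ^ V' * x * (L ^ (C + 1 + 2 ^ (2 * C + 2)) * X) := mul_le_mul_of_nonneg_left f1 (by positivity)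
      _ = (1 / L) * (x * X / L ^ V) := by
          rw [hV', pow_add L (V + 1), pow_add L V, pow_one]
          field_simp
      _ ≤ (1 / 2) * (x * X / L ^ V) := by
          refine mul_le_mul_of_nonneg_right ?_ (by positivity)
          exact one_div_le_one_div_of_le (by norm_num) hL2
  rw [← hXr]
  linarith

/-- the combination of sieve functions of `v` with coefficients at the argument `m` -/
noncomputable def comb {K : ℕ} (b σ : Fin K → ℕ → ℝ) (t : Fin K → ℝ) (m v : ℕ) : ℝ :=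
  ∑ k, t k * b k m * ∑ e ∈ v.divisors, σ k e

/-- **The exceptional set.** -/
theorem few (g : ℤ[X]) (hd : 1 ≤ g.natDegree) (hl : 0 < g.leadingCoeff) (A C : ℕ) (δ : ℝ) (hδ : 0 < δ) :
    ∃ x₀ : ℕ, ∀ x : ℕ, x₀ ≤ x → ∀ (K d : ℕ) (s : ℕ → ℕ) (b σ : Fin K → ℕ → ℝ), (K : ℝ) ≤ Real.log x ^ C →
    Near C g x d s → (∀ k m, |b k m| ≤ 1) → (∀ k, IsSieve C δ x ((x : ℝ) ^ g.natDegree) (σ k)) →
    ∃ E : Finset ℕ, (E.card : ℝ) ≤ (x : ℝ) ^ g.natDegree / Real.log x ^ A ∧
      ∀ c ∈ Icc 1 (x ^ g.natDegree), c ∉ E → ∀ t : Fin K → ℝ, (∀ k, |t k| ≤ Real.log x ^ C) →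
      |∑ m ∈ Icc 1 x, lam (s m + c) * comb b σ t m (s m + c)| ≤ x / Real.log x ^ A := by
  set V : ℕ := 2 * A + 2 * C with hV
  obtain ⟨x₀, h1⟩ := mean g hd hl C V δ hδ
  refine ⟨max x₀ 1, fun x hx K d s b σ hK hs hb hσ => ?_⟩
  obtain ⟨hL2, hmain⟩ := h1 x ((le_max_left _ _).trans hx)
  have hx1 : 1 ≤ x := (le_max_right _ _).trans hx
  have hxr : (1 : ℝ) ≤ x := by exact_mod_cast hx1
  have hx0 : (0 : ℝ) < x := by linarith
  set L := Real.log x with hLd
  have hL0 : 0 < L := by linarith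
  set k := g.natDegree with hk
  set tot : ℕ → ℝ := fun c => ∑ j, |TS x s (b j) (σ j) c| with htot
  have htot0 : ∀ c, 0 ≤ tot c := fun c => sum_nonneg fun _ _ => abs_nonneg _
  have hsum : ∑ c ∈ Icc 1 (x ^ k), tot c ≤ L ^ C * (x * (x : ℝ) ^ k / L ^ V) := by
    rw [htot]
    simp only
    rw [sum_comm]
    calc ∑ j, ∑ c ∈ Icc 1 (x ^ k), |TS x s (b j) (σ j) c| ≤ ∑ _j : Fin K, x * (x : ℝ) ^ k / L ^ V :=
          sum_le_sum fun j _ => hmain d s hs (b j) (σ j) (hb j) (hσ j)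
      _ = K * (x * (x : ℝ) ^ k / L ^ V) := by rw [sum_const, card_univ, Fintype.card_fin, nsmul_eq_mul]
      _ ≤ _ := mul_le_mul_of_nonneg_right hK (by positivity)
  set thr : ℝ := x / L ^ (A + C) with hthr
  have hthr0 : 0 < thr := by positivity
  refine ⟨(Icc 1 (x ^ k)).filter (fun c => thr < tot c), ?_, ?_⟩
  · set E := (Icc 1 (x ^ k)).filter (fun c => thr < tot c) with hE
    have hcount : (E.card : ℝ) * thr ≤ ∑ c ∈ Icc 1 (x ^ k), tot c := by
      calc (E.card : ℝ) * thr = ∑ c ∈ E, thr := by rw [sum_const, nsmul_eq_mul]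
        _ ≤ ∑ c ∈ E, tot c := sum_le_sum fun c hc => (mem_filter.1 hc).2.le
        _ ≤ ∑ c ∈ Icc 1 (x ^ k), tot c :=
            sum_le_sum_of_subset_of_nonneg (filter_subset _ _) fun c _ _ => htot0 c
    have h4 : (E.card : ℝ) * thr ≤ (x : ℝ) ^ k / L ^ A * thr := by
      refine (hcount.trans hsum).trans (le_of_eq ?_)
      rw [hthr, hV]
      have : L ^ (2 * A + 2 * C) = L ^ C * (L ^ A * L ^ (A + C)) := by
        rw [← pow_add, ← pow_add]
        congr 1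
        ring
      rw [this]
      field_simp
    exact le_of_mul_le_mul_right h4 hthr0
  · intro c hc hcE t ht
    have h3 : tot c ≤ thr := by
      by_contra hcon
      push Not at hcon
      exact hcE (mem_filter.2 ⟨hc, hcon⟩)
    have h5 : ∑ m ∈ Icc 1 x, lam (s m + c) * comb b σ t m (s m + c) = ∑ j, t j * TS x s (b j) (σ j) c := by
      unfold comb TS ww
      simp only [mul_sum]
      rw [sum_comm]
      refine sum_congr rfl fun j _ => sum_congr rfl fun m _ => sum_congr rfl fun e _ => ?_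
      ring
    rw [h5]
    calc |∑ j, t j * TS x s (b j) (σ j) c| ≤ ∑ j, |t j * TS x s (b j) (σ j) c| := abs_sum_le_sum_abs _ _
      _ ≤ ∑ j, L ^ C * |TS x s (b j) (σ j) c| := by
          refine sum_le_sum fun j _ => ?_
          rw [abs_mul]
          exact mul_le_mul_of_nonneg_right (ht j) (abs_nonneg _)
      _ = L ^ C * tot c := by rw [mul_sum]
      _ ≤ L ^ C * thr := mul_le_mul_of_nonneg_left h3 (by positivity)
      _ = x / L ^ A := by
          rw [hthr, pow_add]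
          field_simp

end Pool.Agent.U325.PH
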