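import Pool.Agent.U325.PH.Fam

/-!
The version for the values `N - s(m)`, where `d s(m)` is near to a polynomial `g(m)`.
-/

set_option autoImplicit false

namespace Pool.Agent.U325.PH

open Finset Filter Topology Polynomial
open Pool.Agent.U325.PB Pool.Agent.U325.PQ
open Pool.Agent.H807R2.Dav (ee)
open Pool.Agent.H373R2.T7 (energy bil_main moment_energy fz energy_poly cf abs_eval_le)
open Pool.Agent.U325.PA (IsSieve)

lemma energy_neg (p x : ℕ) (s : ℕ → ℤ) : energy p x (fun m => -s m) = energy p x s := by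
  unfold Pool.Agent.H373R2.T7.energy
  congr 1
  apply filter_congr
  intro q _
  simp only [sum_neg_distrib, neg_inj]

/-- the first moment over the numbers `N`, for the values `N - s(m)` -/
theorem first_neg (x X B p : ℕ) (s : ℕ → ℤ) (w b : ℕ → ℝ) (S E C₀ η : ℝ) (hx : 1 ≤ x) (hX : 1 ≤ X)
    (hs : ∀ m ∈ Icc 1 x, |s m| ≤ ((B * X : ℕ) : ℤ)) (hb : ∀ m, |b m| ≤ 1) (hw : w 0 = 0)
    (hS : ∀ t, ‖G w ((B + 1) * X) t‖ ≤ S) (hE : ∑ n ∈ Icc 1 ((B + 1) * X), w n ^ 2 ≤ E)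
    (hen : (energy p x s : ℝ) * X ≤ C₀ * (x : ℝ) ^ (2 * p)) (hη : 0 < η) :
    ∑ c ∈ Icc 1 X, |∑ m ∈ Icc 1 x, b m * w (((c : ℤ) - s m).toNat)| ≤
      C₀ / η ^ (2 * p) * S * x + η * x * Real.sqrt (E * X) := by
  set H : ℕ := (B + 1) * X with hH
  set M : ℕ := (2 * p + 2) * H with hM
  have hXH : X ≤ H := Nat.le_mul_of_pos_left _ (by omega)
  have hBX : B * X ≤ H := Nat.mul_le_mul_right _ (by omega)
  have hHe : H = B * X + X := by rw [hH]; ring
  have hHM2 : 2 * H ≤ M := Nat.mul_le_mul_right _ (by omega)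
  have hHM : H ≤ M := by omega
  have hM1 : 1 ≤ M := by omega
  have hx0 : (0 : ℝ) < x := by exact_mod_cast hx
  have hX0 : (0 : ℝ) < X := by exact_mod_cast hX
  have hcond : ∀ a ∈ Icc 1 X, ∀ m ∈ Icc 1 x, ∀ n ∈ Icc 1 H, |(a : ℤ) + (-s m) - n| < M := by
    intro a ha m hm n hn
    have h1 := abs_le.1 (hs m hm)
    rw [mem_Icc] at ha hn
    rw [abs_lt]
    constructor <;> omega
  have hmomE := moment_energy p x (fun m => -s m) M (B * X) hM1 (fun m hm => by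
    have := hs m hm
    rw [abs_neg]
    exact this) (by
    have h4 : 2 * p * (B * X) ≤ 2 * p * H := Nat.mul_le_mul_left _ hBX
    have h5 : 2 * p * H < (2 * p + 2) * H := Nat.mul_lt_mul_of_pos_right (by omega) (by omega)
    omega)
  have hMr : (M : ℝ) = (2 * p + 2) * (B + 1) * X := by rw [hM, hH]; push_cast; ring
  have hmom : ∑ t ∈ range M, (‖∑ m ∈ Icc 1 x, ee ((t : ℝ) * (((-s m : ℤ) : ℝ) / M))‖ / x) ^ (2 * p) ≤
      (2 * p + 2) * (B + 1) * C₀ := by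
    have h2 : ∑ t ∈ range M, (‖∑ m ∈ Icc 1 x, ee ((t : ℝ) * (((-s m : ℤ) : ℝ) / M))‖ / x) ^ (2 * p) =
        (M * energy p x (fun m => -s m)) / (x : ℝ) ^ (2 * p) := by
      rw [← hmomE, sum_div]
      exact sum_congr rfl fun t _ => div_pow _ _ _
    rw [h2, energy_neg, div_le_iff₀ (by positivity), hMr]
    calc (2 * (p : ℝ) + 2) * (B + 1) * X * energy p x s = (2 * p + 2) * (B + 1) * (energy p x s * X) := by ring
      _ ≤ (2 * p + 2) * (B + 1) * (C₀ * (x : ℝ) ^ (2 * p)) := mul_le_mul_of_nonneg_left hen (by positivity)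
      _ = _ := by ring
  set T : ℕ → ℝ := fun c => ∑ m ∈ Icc 1 x, b m * w (((c : ℤ) - s m).toNat) with hT
  set sg : ℕ → ℝ := fun c => if 0 ≤ T c then 1 else -1 with hsg
  have hsg1 : ∀ c, sg c * T c = |T c| := by
    intro c
    rw [hsg]
    simp only
    split_ifs with h
    · rw [one_mul, abs_of_nonneg h]
    · rw [abs_of_neg (not_le.1 h)]; ring
  have hsg2 : ∀ c, ‖((sg c : ℝ) : ℂ)‖ ≤ 1 := by
    intro c
    rw [Complex.norm_real, Real.norm_eq_abs, hsg]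
    simp only
    split_ifs
    · rw [abs_one]
    · rw [abs_neg, abs_one]
  have hb2 : ∀ m, ‖((b m : ℝ) : ℂ)‖ ≤ 1 := by
    intro m
    rw [Complex.norm_real, Real.norm_eq_abs]
    exact hb m
  have hf : ∀ α : ℝ, ‖∑ n ∈ Icc 1 H, ((w n : ℝ) : ℂ) * ee ((n : ℝ) * α)‖ ≤ S := by
    intro α
    have := hS α
    unfold G at this
    exact this
  have hfs : ∑ n ∈ Icc 1 H, ‖((w n : ℝ) : ℂ)‖ ^ 2 ≤ E := by
    refine le_trans (le_of_eq (sum_congr rfl fun n _ => ?_)) hE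
    rw [Complex.norm_real, Real.norm_eq_abs, sq_abs]
  have key := bil_main X H x M hM1 (fun n => ((w n : ℝ) : ℂ)) (fun c => ((sg c : ℝ) : ℂ)) (fun m => ((b m : ℝ) : ℂ))
    (fun m => -s m) S η p ((2 * p + 2) * (B + 1) * C₀) E hcond (by omega) hHM hx hf hsg2 hb2 hmom hfs hη
  have heq : ∑ a ∈ Icc 1 X, ∑ m ∈ Icc 1 x, ((sg a : ℝ) : ℂ) * ((b m : ℝ) : ℂ) *
      fz (fun n => ((w n : ℝ) : ℂ)) H (a + (-s m)) = ((∑ c ∈ Icc 1 X, |T c| : ℝ) : ℂ) := by
    push_cast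
    refine sum_congr rfl fun a ha => ?_
    have e1 : ((|T a| : ℝ) : ℂ) = ((sg a * T a : ℝ) : ℂ) := by rw [hsg1]
    rw [e1, hT]
    push_cast
    rw [mul_sum]
    refine sum_congr rfl fun m hm => ?_
    have h1 := abs_le.1 (hs m hm)
    rw [mem_Icc] at ha
    unfold fz
    by_cases h2 : 1 ≤ (a : ℤ) - s m
    · rw [if_pos ⟨by omega, by omega⟩]
      have e2 : ((a : ℤ) + (-s m)).toNat = ((a : ℤ) - s m).toNat := by omega
      rw [e2]
      ring
    · rw [if_neg (by omega)]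
      have e2 : ((a : ℤ) - s m).toNat = 0 := by omega
      rw [e2, hw]
      push_cast
      ring
  rw [heq, Complex.norm_real, Real.norm_of_nonneg (sum_nonneg fun _ _ => abs_nonneg _)] at key
  refine key.trans (le_of_eq ?_)
  have e3 : (2 * (p : ℝ) + 2) * (B + 1) * C₀ / η ^ (2 * p) * S * X * x / M = C₀ / η ^ (2 * p) * S * x := by
    rw [hMr]
    have : (2 * (p : ℝ) + 2) ≠ 0 := by positivity
    have : ((B : ℝ) + 1) ≠ 0 := by positivity
    field_simp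
  rw [e3]

lemma ww_zero (σ : ℕ → ℝ) : ww σ 0 = 0 := by
  unfold ww
  simp

/-- the weighted sum of `λ(v) ∑_{e ∣ v} σ(e)`, `v = N - s(m)` -/
noncomputable def TN (x : ℕ) (s : ℕ → ℤ) (b σ : ℕ → ℝ) (c : ℕ) : ℝ :=
  ∑ m ∈ Icc 1 x, b m * ww σ (((c : ℤ) - s m).toNat)

/-- `d s(m)` is within `(log x) ^ C` of `g(m)` -/
def NearInt (C : ℕ) (g : ℤ[X]) (x d : ℕ) (s : ℕ → ℤ) : Prop :=
  1 ≤ d ∧ ∀ m ∈ Icc 1 x, (|(d : ℝ) * (s m : ℝ) - ((g.eval (m : ℤ) : ℤ) : ℝ)| : ℝ) ≤ Real.log x ^ C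

theorem mean_neg (g : ℤ[X]) (hd : 1 ≤ g.natDegree) (hl : 0 < g.leadingCoeff) (C V : ℕ) (δ : ℝ) (hδ : 0 < δ) :
    ∃ x₀ : ℕ, ∀ x : ℕ, x₀ ≤ x → 2 ≤ Real.log x ∧ ∀ (d : ℕ) (s : ℕ → ℤ), NearInt C g x d s →
    ∀ b σ : ℕ → ℝ, (∀ m, |b m| ≤ 1) → IsSieve C δ x ((x : ℝ) ^ g.natDegree) σ →
    ∑ c ∈ Icc 1 (x ^ g.natDegree), |TN x s b σ c| ≤ x * (x : ℝ) ^ g.natDegree / Real.log x ^ V := by
  obtain ⟨p, Cg, hCg, hen⟩ := energy_poly g hd hl
  set k := g.natDegree with hk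
  set B : ℕ := cf g + 1 with hB
  set V' : ℕ := V + 1 + (C + 1 + 2 ^ (2 * C + 2)) with hV'
  set U : ℕ := V + (C + 1) + V' * (2 * p) + 1 + C + 2 * 2 ^ C + 1 with hU
  obtain ⟨x₀, h1⟩ := env k (B + 1) (U + C) hd (by omega) δ hδ ((4 * p + 1) * Cg + (B + 1) + (k + 2) + 2)
  refine ⟨x₀, fun x hx => ?_⟩
  obtain ⟨hx1, hL1, hLB, hxU, hlog, hsup⟩ := h1 x hx
  have hxr : (1 : ℝ) ≤ x := by exact_mod_cast hx1
  have hx0 : (0 : ℝ) < x := by linarith
  set L := Real.log x with hLd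
  have hL0 : 0 < L := by linarith
  have q1 : 0 ≤ (4 * (p : ℝ) + 1) * Cg := by positivity
  have q2 : (0 : ℝ) ≤ B := Nat.cast_nonneg _
  have q3 : (0 : ℝ) ≤ k := Nat.cast_nonneg _
  refine ⟨by linarith, fun d s hs b σ hb hσ => ?_⟩
  set X : ℕ := x ^ k with hX
  have hXr : (X : ℝ) = (x : ℝ) ^ k := by rw [hX]; push_cast; ring
  have hX1 : 1 ≤ X := Nat.one_le_pow _ _ hx1
  have hX0 : (0 : ℝ) < X := by exact_mod_cast hX1
  have hLC : L ^ C ≤ x := (pow_le_pow_right₀ hL1 (by omega)).trans hxU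
  have hLCX : L ^ C ≤ X := by
    refine hLC.trans ?_
    have : x ≤ X := by
      calc x = x ^ 1 := (pow_one _).symm
        _ ≤ X := Nat.pow_le_pow_right hx1 hd
    exact_mod_cast this
  -- the size of the family
  have hsB : ∀ m ∈ Icc 1 x, |s m| ≤ ((B * X : ℕ) : ℤ) := by
    intro m hm
    have e1 := hs.2 m hm
    have e2 := abs_eval_le g m (mem_Icc.1 hm).1
    have e3 : |((g.eval (m : ℤ) : ℤ) : ℝ)| ≤ cf g * (m : ℝ) ^ k := by
      exact_mod_cast e2
    have e4 : (m : ℝ) ^ k ≤ X := by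
      rw [hXr]
      have : (m : ℝ) ≤ x := by exact_mod_cast (mem_Icc.1 hm).2
      exact pow_le_pow_left₀ (Nat.cast_nonneg _) this k
    have e5 : |(s m : ℝ)| ≤ |(d : ℝ) * (s m : ℝ)| := by
      rw [abs_mul]
      have : (1 : ℝ) ≤ |(d : ℝ)| := by
        rw [abs_of_nonneg (Nat.cast_nonneg _)]
        exact_mod_cast hs.1
      exact le_mul_of_one_le_left (abs_nonneg _) this
    have e6 : (cf g : ℝ) * (m : ℝ) ^ k ≤ cf g * X := mul_le_mul_of_nonneg_left e4 (Nat.cast_nonneg _)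
    have e7 : |(d : ℝ) * (s m : ℝ)| ≤ L ^ C + |((g.eval (m : ℤ) : ℤ) : ℝ)| := by
      have f1 := abs_sub_abs_le_abs_sub ((d : ℝ) * (s m : ℝ)) ((g.eval (m : ℤ) : ℤ) : ℝ)
      linarith
    have e8 : |(s m : ℝ)| ≤ ((B * X : ℕ) : ℝ) := by
      rw [hB]
      push_cast
      linarith
    exact_mod_cast e8
  -- the energy of the family
  set R : ℕ := ⌊L ^ C⌋₊ with hR
  have hRr : (R : ℝ) ≤ L ^ C := Nat.floor_le (by positivity)
  have hen2 : energy p x s ≤ (4 * (p * R) + 1) * energy p x (fun m => g.eval (m : ℤ)) := by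
    refine energy_pert p x R d s (fun m => g.eval (m : ℤ)) fun m hm => ?_
    have e1 := hs.2 m hm
    have e2 : (|(d : ℤ) * s m - g.eval (m : ℤ)| : ℤ) = (((d : ℤ) * s m - g.eval (m : ℤ)).natAbs : ℤ) :=
      Int.abs_eq_natAbs _
    rw [e2]
    have e3 : ((((d : ℤ) * s m - g.eval (m : ℤ)).natAbs : ℕ) : ℝ) ≤ L ^ C := by
      rw [Nat.cast_natAbs, Int.cast_abs]
      push_cast
      exact e1
    exact_mod_cast Nat.le_floor e3
  have hen3 : (energy p x s : ℝ) * X ≤ L ^ (C + 1) * (x : ℝ) ^ (2 * p) := by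
    have e1 : (energy p x s : ℝ) ≤ (4 * (p * R) + 1) * energy p x (fun m => g.eval (m : ℤ)) := by
      exact_mod_cast hen2
    have e2 := hen x hx1
    rw [← hXr] at e2
    have e3 : (4 * ((p : ℝ) * R) + 1) * Cg ≤ L ^ (C + 1) := by
      have f1 : 4 * ((p : ℝ) * R) + 1 ≤ (4 * p + 1) * L ^ C := by
        have g1 : (p : ℝ) * R ≤ p * L ^ C := mul_le_mul_of_nonneg_left hRr (Nat.cast_nonneg _)
        have g2 : 1 ≤ L ^ C := one_le_pow₀ hL1
        nlinarith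
      calc (4 * ((p : ℝ) * R) + 1) * Cg ≤ ((4 * p + 1) * L ^ C) * Cg := mul_le_mul_of_nonneg_right f1 hCg.le
        _ = ((4 * p + 1) * Cg) * L ^ C := by ring
        _ ≤ L * L ^ C := mul_le_mul_of_nonneg_right (by linarith) (by positivity)
        _ = _ := by ring
    calc (energy p x s : ℝ) * X ≤
          ((4 * (p * R) + 1) * energy p x (fun m => g.eval (m : ℤ))) * X := mul_le_mul_of_nonneg_right e1 hX0.le
      _ = (4 * (p * R) + 1) * (energy p x (fun m => g.eval (m : ℤ)) * X) := by ring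
      _ ≤ (4 * (p * R) + 1) * (Cg * (x : ℝ) ^ (2 * p)) := mul_le_mul_of_nonneg_left e2 (by positivity)
      _ = ((4 * (p * R) + 1) * Cg) * (x : ℝ) ^ (2 * p) := by ring
      _ ≤ _ := mul_le_mul_of_nonneg_right e3 (by positivity)
  -- the sums of the weights
  set H : ℕ := (B + 1) * X with hH
  set Z : ℕ := ⌊(x : ℝ) ^ k * Real.exp (-(Real.log x) ^ δ)⌋₊ with hZ
  have hexp1 : Real.exp (-(Real.log x) ^ δ) ≤ 1 := by
    rw [Real.exp_le_one_iff]
    have : 0 ≤ L ^ δ := Real.rpow_nonneg hL0.le _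
    linarith
  have hZr : (Z : ℝ) ≤ (x : ℝ) ^ k * Real.exp (-(Real.log x) ^ δ) := Nat.floor_le (by positivity)
  have hXH : X ≤ H := Nat.le_mul_of_pos_left _ (by omega)
  have hZH : Z ≤ H := by
    refine le_trans ?_ hXH
    have : (Z : ℝ) ≤ X := by
      rw [hXr]
      exact hZr.trans (mul_le_of_le_one_right (by positivity) hexp1)
    exact_mod_cast this
  have hH1 : 1 ≤ H := hX1.trans hXH
  have hS1 : ∀ e ∈ Icc 1 Z, ∀ t : ℝ, ‖G (vE e) H t‖ ≤ H / e / L ^ (U + C) := by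
    intro e he t
    rw [mem_Icc] at he
    refine hsup e he.1 ?_ t
    have : (e : ℝ) ≤ Z := by exact_mod_cast he.2
    exact this.trans hZr
  have hσ0 : ∀ e, Z < e → σ e = 0 := fun e he => (hσ e).2 (Nat.lt_of_floor_lt he)
  have hσ1 : ∀ e, |σ e| ≤ L ^ C * (e.divisors.card : ℝ) ^ C := fun e => (hσ e).1
  have hsupw := ww_sup σ C Z H (L ^ C) (L ^ (U + C)) (by positivity) (by positivity) hZH hσ0 hσ1 hS1
  have hsqw := ww_sq σ C H (L ^ C) (by positivity) hσ1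
  set t1 := Pool.Agent.U325.PB.tsum C H with ht1
  set t2 := Pool.Agent.U325.PB.tsum (2 * C + 2) H with ht2
  have hlog2 : 1 + Real.log (H : ℝ) ≤ L ^ 2 := by
    refine hlog.trans ?_
    rw [sq]
    exact mul_le_mul_of_nonneg_right (by linarith) hL0.le
  have hlog0 : 0 ≤ 1 + Real.log (H : ℝ) := by
    have : 0 ≤ Real.log (H : ℝ) := Real.log_natCast_nonneg _
    linarith
  have ht1b : t1 ≤ L ^ (2 * 2 ^ C) := by
    refine (tsum_le C H hH1).trans ?_
    rw [pow_mul]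
    exact pow_le_pow_left₀ hlog0 hlog2 _
  have ht2b : t2 ≤ L ^ (2 * 2 ^ (2 * C + 2)) := by
    refine (tsum_le (2 * C + 2) H hH1).trans ?_
    rw [pow_mul]
    exact pow_le_pow_left₀ hlog0 hlog2 _
  have ht10 : 0 ≤ t1 := tsum_nonneg _ _
  have ht20 : 0 ≤ t2 := tsum_nonneg _ _
  have hHr : (H : ℝ) ≤ L * X := by
    rw [hH]
    push_cast
    exact mul_le_mul_of_nonneg_right (by linarith) hX0.le
  have key := first_neg x X B p s (ww σ) b (H * (L ^ C * t1 / L ^ (U + C))) ((L ^ C) ^ 2 * (H * t2)) (L ^ (C + 1))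
    (1 / L ^ V') hx1 hX1 hsB hb (ww_zero σ) hsupw hsqw hen3 (by positivity)
  have hsum : ∑ c ∈ Icc 1 X, |TN x s b σ c| ≤ L ^ (C + 1) / (1 / L ^ V') ^ (2 * p) * (H * (L ^ C * t1 / L ^ (U + C))) * x +
      1 / L ^ V' * x * Real.sqrt ((L ^ C) ^ 2 * (H * t2) * X) := key
  have hL2 : 2 ≤ L := by linarith
  have term1 : L ^ (C + 1) / (1 / L ^ V') ^ (2 * p) * (H * (L ^ C * t1 / L ^ (U + C))) * x ≤ (1 / 2) * (x * X / L ^ V) := by
    have f0 : L ^ C * t1 / L ^ (U + C) = t1 / L ^ U := by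
      rw [pow_add]
      field_simp
    have f1 : L ^ (C + 1) / (1 / L ^ V') ^ (2 * p) = L ^ (C + 1) * L ^ (V' * (2 * p)) := by
      rw [div_pow, one_pow, ← pow_mul, div_div_eq_mul_div, div_one]
    rw [f0, f1]
    calc L ^ (C + 1) * L ^ (V' * (2 * p)) * (H * (t1 / L ^ U)) * x
        ≤ L ^ (C + 1) * L ^ (V' * (2 * p)) * ((L * X) * (L ^ (2 * 2 ^ C) / L ^ U)) * x := by
          refine mul_le_mul_of_nonneg_right ?_ hx0.le
          refine mul_le_mul_of_nonneg_left ?_ (by positivity)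
          refine mul_le_mul hHr ?_ (by positivity) (by positivity)
          exact div_le_div_of_nonneg_right ht1b (by positivity)
      _ = (1 / L) * (x * X / L ^ V) / L ^ C := by
          have : L ^ U = L ^ V * L ^ (C + 1) * L ^ (V' * (2 * p)) * L * L ^ C * L ^ (2 * 2 ^ C) * L := by
            rw [hU]
            simp only [pow_add, pow_one]
          rw [this]
          field_simp
      _ ≤ (1 / L) * (x * X / L ^ V) := div_le_self (by positivity) (one_le_pow₀ hL1)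
      _ ≤ (1 / 2) * (x * X / L ^ V) := by
          refine mul_le_mul_of_nonneg_right ?_ (by positivity)
          exact one_div_le_one_div_of_le (by norm_num) hL2
  have term2 : 1 / L ^ V' * x * Real.sqrt ((L ^ C) ^ 2 * (H * t2) * X) ≤ (1 / 2) * (x * X / L ^ V) := by
    have f1 : Real.sqrt ((L ^ C) ^ 2 * (H * t2) * X) ≤ L ^ (C + 1 + 2 ^ (2 * C + 2)) * X := by
      rw [Real.sqrt_le_left (by positivity)]
      calc (L ^ C) ^ 2 * (H * t2) * X ≤ (L ^ C) ^ 2 * ((L * X) * L ^ (2 * 2 ^ (2 * C + 2))) * X := by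
            refine mul_le_mul_of_nonneg_right ?_ hX0.le
            refine mul_le_mul_of_nonneg_left ?_ (by positivity)
            exact mul_le_mul hHr ht2b ht20 (by positivity)
        _ = L * ((L ^ C) ^ 2 * (L ^ (2 ^ (2 * C + 2))) ^ 2 * X ^ 2) := by
            rw [mul_comm 2 (2 ^ (2 * C + 2)), pow_mul]
            ring
        _ ≤ L ^ 2 * ((L ^ C) ^ 2 * (L ^ (2 ^ (2 * C + 2))) ^ 2 * X ^ 2) := by
            refine mul_le_mul_of_nonneg_right ?_ (by positivity)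
            nlinarith
        _ = (L ^ (C + 1 + 2 ^ (2 * C + 2)) * X) ^ 2 := by
            rw [pow_add L (C + 1), pow_add L C 1, pow_one]
            ring
    calc 1 / L ^ V' * x * Real.sqrt ((L ^ C) ^ 2 * (H * t2) * X)
        ≤ 1 / L ^ V' * x * (L ^ (C + 1 + 2 ^ (2 * C + 2)) * X) := mul_le_mul_of_nonneg_left f1 (by positivity)
      _ = (1 / L) * (x * X / L ^ V) := by
          rw [hV', pow_add L (V + 1), pow_add L V, pow_one]
          field_simp
      _ ≤ (1 / 2) * (x * X / L ^ V) := by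
          refine mul_le_mul_of_nonneg_right ?_ (by positivity)
          exact one_div_le_one_div_of_le (by norm_num) hL2
  rw [← hXr]
  linarith

/-- **The exceptional set** for the values `N - s(m)`. -/
theorem few_neg (g : ℤ[X]) (hd : 1 ≤ g.natDegree) (hl : 0 < g.leadingCoeff) (A C : ℕ) (δ : ℝ) (hδ : 0 < δ) :
    ∃ x₀ : ℕ, ∀ x : ℕ, x₀ ≤ x → ∀ (K d : ℕ) (s : ℕ → ℤ) (b σ : Fin K → ℕ → ℝ), (K : ℝ) ≤ Real.log x ^ C →
    NearInt C g x d s → (∀ k m, |b k m| ≤ 1) → (∀ k, IsSieve C δ x ((x : ℝ) ^ g.natDegree) (σ k)) →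
    ∃ E : Finset ℕ, (E.card : ℝ) ≤ (x : ℝ) ^ g.natDegree / Real.log x ^ A ∧
      ∀ c ∈ Icc 1 (x ^ g.natDegree), c ∉ E → ∀ t : Fin K → ℝ, (∀ k, |t k| ≤ Real.log x ^ C) →
      |∑ m ∈ Icc 1 x, lam (((c : ℤ) - s m).toNat) * comb b σ t m (((c : ℤ) - s m).toNat)| ≤ x / Real.log x ^ A := by
  set V : ℕ := 2 * A + 2 * C with hV
  obtain ⟨x₀, h1⟩ := mean_neg g hd hl C V δ hδ
  refine ⟨max x₀ 1, fun x hx K d s b σ hK hs hb hσ => ?_⟩
  obtain ⟨hL2, hmain⟩ := h1 x ((le_max_left _ _).trans hx)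
  have hx1 : 1 ≤ x := (le_max_right _ _).trans hx
  have hxr : (1 : ℝ) ≤ x := by exact_mod_cast hx1
  have hx0 : (0 : ℝ) < x := by linarith
  set L := Real.log x with hLd
  have hL0 : 0 < L := by linarith
  set k := g.natDegree with hk
  set tot : ℕ → ℝ := fun c => ∑ j, |TN x s (b j) (σ j) c| with htot
  have htot0 : ∀ c, 0 ≤ tot c := fun c => sum_nonneg fun _ _ => abs_nonneg _
  have hsum : ∑ c ∈ Icc 1 (x ^ k), tot c ≤ L ^ C * (x * (x : ℝ) ^ k / L ^ V) := by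
    rw [htot]
    simp only
    rw [sum_comm]
    calc ∑ j, ∑ c ∈ Icc 1 (x ^ k), |TN x s (b j) (σ j) c| ≤ ∑ _j : Fin K, x * (x : ℝ) ^ k / L ^ V :=
          sum_le_sum fun j _ => hmain d s hs (b j) (σ j) (hb j) (hσ j)
      _ = K * (x * (x : ℝ) ^ k / L ^ V) := by rw [sum_const, card_univ, Fintype.card_fin, nsmul_eq_mul]
      _ ≤ _ := mul_le_mul_of_nonneg_right hK (by positivity)
  set thr : ℝ := x / L ^ (A + C) with hthr
  have hthr0 : 0 < thr := by positivity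
  refine ⟨(Icc 1 (x ^ k)).filter (fun c => thr < tot c), ?_, ?_⟩
  · set E := (Icc 1 (x ^ k)).filter (fun c => thr < tot c) with hE
    have hcount : (E.card : ℝ) * thr ≤ ∑ c ∈ Icc 1 (x ^ k), tot c := by
      calc (E.card : ℝ) * thr = ∑ c ∈ E, thr := by rw [sum_const, nsmul_eq_mul]
        _ ≤ ∑ c ∈ E, tot c := sum_le_sum fun c hc => (mem_filter.1 hc).2.le
        _ ≤ ∑ c ∈ Icc 1 (x ^ k), tot c :=
            sum_le_sum_of_subset_of_nonneg (filter_subset _ _) fun c _ _ => htot0 c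
    have h4 : (E.card : ℝ) * thr ≤ (x : ℝ) ^ k / L ^ A * thr := by
      refine (hcount.trans hsum).trans (le_of_eq ?_)
      rw [hthr, hV]
      have : L ^ (2 * A + 2 * C) = L ^ C * (L ^ A * L ^ (A + C)) := by
        rw [← pow_add, ← pow_add]
        congr 1
        ring
      rw [this]
      field_simp
    exact le_of_mul_le_mul_right h4 hthr0
  · intro c hc hcE t ht
    have h3 : tot c ≤ thr := by
      by_contra hcon
      push Not at hcon
      exact hcE (mem_filter.2 ⟨hc, hcon⟩)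
    have h5 : ∑ m ∈ Icc 1 x, lam (((c : ℤ) - s m).toNat) * comb b σ t m (((c : ℤ) - s m).toNat) =
        ∑ j, t j * TN x s (b j) (σ j) c := by
      unfold comb TN ww
      simp only [mul_sum]
      rw [sum_comm]
      refine sum_congr rfl fun j _ => sum_congr rfl fun m _ => sum_congr rfl fun e _ => ?_
      ring
    rw [h5]
    calc |∑ j, t j * TN x s (b j) (σ j) c| ≤ ∑ j, |t j * TN x s (b j) (σ j) c| := abs_sum_le_sum_abs _ _
      _ ≤ ∑ j, L ^ C * |TN x s (b j) (σ j) c| := by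
          refine sum_le_sum fun j _ => ?_
          rw [abs_mul]
          exact mul_le_mul_of_nonneg_right (ht j) (abs_nonneg _)
      _ = L ^ C * tot c := by rw [mul_sum]
      _ ≤ L ^ C * thr := mul_le_mul_of_nonneg_left h3 (by positivity)
      _ = x / L ^ A := by
          rw [hthr, pow_add]
          field_simp

end Pool.Agent.U325.PH
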